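import Pool.Agent.SteinFill.Final
import Pool.Agent.SteinFill.TanL
import Pool.Agent.SteinFill.FlowL
import Pool.Agent.SteinFill.Nagumo
import Pool.Agent.SteinFill.LinkT
import Pool.Agent.SteinFill.LocalL
import Pool.Agent.SteinFill.FieldL
import Pool.Agent.SteinFill.UnifL
import Pool.Agent.SteinFill.GrayL
import Pool.Agent.SteinFill.Fam01
import Pool.Agent.SteinFill.Fam2L
import Pool.Agent.SteinFill.ChartL
import Pool.Agent.SteinFill.Fam3L
import Pool.Agent.SteinFill.EndsL
import Pool.Agent.SteinFill.SmoothL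
import Pool.Agent.SteinFill.VL
import Pool.Agent.SteinFill.KnotL
import Pool.Agent.SteinFill.BridgeL
import Pool.Agent.SteinFill.PathL
import Pool.Agent.SteinFill.InvL
import Pool.Agent.SteinFill.CTriv
import Pool.Agent.SteinFill.ZeroL
import Pool.Agent.SteinFill.LoopsL
import Pool.Agent.SteinFill.ObsL
import Pool.Agent.SteinFill.ExistsL
import Pool.Agent.SteinFill.StConv

/-!
A Stein filling of the 6-fold cyclic cover of the standard contact 3-sphere branched along the
transverse knot `{y² = x³ + 1/8} ∩ S³` that is not a branched cover of the ball along a complex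
curve.
-/

namespace Pool.Agent.Results.MP_be6ab7_gt.NotBranchedCover

open Pool.Agent.SteinFill.St

theorem main_old :
    ∃ (C : Pool.Agent.SteinFill.ComplexCurve) (V : Pool.Agent.SteinFill.SteinDomain 7),
      C.U = Set.univ ∧ (C.f = fun p => (p 1) ^ 2 - (p 0) ^ 3 - 1 / 8) ∧
      Pool.Agent.SteinFill.IsKnot C.bd ∧
      Pool.Agent.SteinFill.IsSteinFillingOfCover C 6 V ∧
      ∀ (C' : Pool.Agent.SteinFill.ComplexCurve) (m : ℕ) (ε : ℝ)
        (D : Pool.Agent.SteinFill.SteinDomain 3), 2 ≤ m → 0 < ε →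
        Pool.Agent.SteinFill.IsBranchedCover C' m ε D →
        ¬ Pool.Agent.SteinFill.SteinDeformationEquivalent D V := by
  open Pool.Agent.SteinFill in
  have hL : TLocal := tLocal tTan
  have hG : TGray := tGray tFlow tNagumo tReparam hL (tField hL) (tUnif hL)
  have hS : TSmooth := tSmooth tChartI tChartP
  exact tFinal tLinkTrans hG tFam1 tFam2 (tFam3 tChartI tChartP) tEnds (tV tTan hS) tCurve
    (tKnot hG tFam0) (tCover tTan) (tBridge tTan) (tInv tTan (tPath tTan)) (tCoverTriv tTan)
    (tObs tTan tZero tLoops hS)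

/-- There are a complex curve `C` in the ball (`y² = x³ + 1/8`, whose boundary is a knot) and a
Stein domain `V` which is a Stein filling of the 6-fold cyclic branched cover along `∂C`, but `V`
is not Stein deformation equivalent to the branched cover `W_{m,Σ'}` (which exists for all small
`ε`) along any complex curve `Σ'` in the ball, of any degree `m`. -/
theorem result :
    ∃ (C : ComplexCurve) (V : SteinDomain 7),
      C.U = Set.univ ∧ (C.f = fun p => (p 1) ^ 2 - (p 0) ^ 3 - 1 / 8) ∧ IsKnot C.bd ∧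
      IsSteinFillingOfCover C 6 V ∧
      ∀ (C' : ComplexCurve) (m : ℕ), 2 ≤ m →
        (∃ ε₀ : ℝ, 0 < ε₀ ∧ ∀ ε : ℝ, 0 < ε → ε ≤ ε₀ →
          ∃ D : SteinDomain 3, IsBranchedCover C' m ε D) ∧
        ∀ (ε : ℝ) (D : SteinDomain 3), 0 < ε → IsBranchedCover C' m ε D →
          ¬ SteinDeformationEquivalent D V := by
  open Pool.Agent.SteinFill.StConv in
  obtain ⟨C, V, h1, h2, h3, h4, h5⟩ := main_old
  refine ⟨newC C, new V, h1, h2, ?_, filling_of C 6 V h4, fun C' m hm => ⟨?_, ?_⟩⟩
  · rw [bd_newC]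
    exact h3
  · obtain ⟨ε₀, h0, h6⟩ :=
      Pool.Agent.SteinFill.exists_branchedCover Pool.Agent.SteinFill.tTan (oldC C') m hm
    refine ⟨ε₀, h0, fun ε he hee => ?_⟩
    obtain ⟨D, hD⟩ := h6 ε he hee
    exact ⟨new D, hD⟩
  · intro ε D he hD hdef
    exact h5 (oldC C') m ε (old D) hm he hD (deformation_to D (new V) hdef)

end Pool.Agent.Results.MP_be6ab7_gt.NotBranchedCover
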